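import Pool.Agent.Helper64.IG.Goals

/-!
# MP_d01c92_ag, project IG, packet NSB: `BW` is stable under `N(∞)`
-/

set_option autoImplicit false

open scoped BigOperators

universe u

namespace Pool.Agent.Helper64.IG.PkNSB

open Pool.Agent.Helper64.IG

theorem inc_injective {n p m q : ℕ} (hn : n ≤ m) (hp : p ≤ q) :
    Function.Injective (inc hn hp) :=
  Function.Injective.sumMap (Fin.castLE_injective hn) (Fin.castLE_injective hp)

section
variable {K : Type u} [Field K] {n p m q : ℕ} (g : Mono K n p) (hn : n ≤ m) (hp : p ≤ q)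

theorem s_inc (j : Ix n p) : g.s hn hp (inc hn hp j) = inc hn hp (g.σ j) := by
  classical
  unfold Mono.s
  have h : ∃ j', inc hn hp j' = inc hn hp j := ⟨j, rfl⟩
  rw [dif_pos h, inc_injective hn hp h.choose_spec]

theorem s_out (i : Ix m q) (h : ¬ ∃ j, inc hn hp j = i) : g.s hn hp i = i := by
  classical
  unfold Mono.s
  rw [dif_neg h]

theorem s_injective : Function.Injective (g.s hn hp) := by
  intro a b hab
  by_cases ha : ∃ j, inc hn hp j = a
  · obtain ⟨j, rfl⟩ := ha
    rw [s_inc] at hab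
    by_cases hb : ∃ j, inc hn hp j = b
    · obtain ⟨k, rfl⟩ := hb
      rw [s_inc] at hab
      rw [g.σ.injective (inc_injective hn hp hab)]
    · rw [s_out g hn hp b hb] at hab
      exact absurd ⟨_, hab⟩ hb
  · rw [s_out g hn hp a ha] at hab
    by_cases hb : ∃ j, inc hn hp j = b
    · obtain ⟨k, rfl⟩ := hb
      rw [s_inc] at hab
      exact absurd ⟨_, hab.symm⟩ ha
    · rw [s_out g hn hp b hb] at hab
      exact hab

theorem t_ne (i : Ix n p) : g.t i ≠ 0 := by
  intro h
  have h1 := g.det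
  rw [Finset.prod_eq_zero (Finset.mem_univ i) h, mul_zero] at h1
  exact zero_ne_one h1

theorem c_ne (i : Ix m q) : g.c hn hp i ≠ 0 := by
  classical
  unfold Mono.c
  split_ifs
  · exact t_ne g _
  · exact one_ne_zero

end

/-- rank of a transported form -/
theorem rk_map {K : Type u} [Field K] {n p : ℕ} (ω ω' : Form K n p) (s : Equiv.Perm (Ix n p))
    (h : ∀ a, ω' a ≠ 0 ↔ ω (s ∘ a) ≠ 0) (X : Finset (Ix n p)) :
    rk ω' X = rk ω (X.map s.toEmbedding) := by
  classical
  unfold rk
  apply le_antisymm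
  · refine Finset.sup_le fun a ha => ?_
    rw [Finset.mem_filter] at ha
    have hm : (s ∘ a) ∈ Finset.univ.filter fun a => ω a ≠ 0 := by
      rw [Finset.mem_filter]
      exact ⟨Finset.mem_univ _, (h a).1 ha.2⟩
    refine le_trans (le_of_eq ?_) (Finset.le_sup
      (f := fun a => (Finset.univ.filter fun j => a j ∈ X.map s.toEmbedding).card) hm)
    congr 1
    ext j
    simp
  · refine Finset.sup_le fun a ha => ?_
    rw [Finset.mem_filter] at ha
    have hm : (s.symm ∘ a) ∈ Finset.univ.filter fun a => ω' a ≠ 0 := by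
      rw [Finset.mem_filter]
      refine ⟨Finset.mem_univ _, (h _).2 ?_⟩
      have : s ∘ (s.symm ∘ a) = a := by
        funext j; simp
      rw [this]; exact ha.2
    refine le_trans (le_of_eq ?_) (Finset.le_sup
      (f := fun a => (Finset.univ.filter fun j => a j ∈ X).card) hm)
    congr 1
    ext j
    simp

theorem conn_map {K : Type u} [Field K] {n p : ℕ} (ω ω' : Form K n p) (s : Equiv.Perm (Ix n p))
    (h : ∀ a, ω' a ≠ 0 ↔ ω (s ∘ a) ≠ 0) (X : Finset (Ix n p)) :
    conn ω' X = conn ω (X.map s.toEmbedding) := by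
  unfold conn
  rw [rk_map ω ω' s h, rk_map ω ω' s h]
  have : (Xᶜ).map s.toEmbedding = (X.map s.toEmbedding)ᶜ := by
    ext i
    simp
  rw [this]

theorem dec_map {E F : Type*} [DecidableEq E] [DecidableEq F] (e : E ≃ F) {lam : Finset E → ℕ}
    {lam' : Finset F → ℕ} {w : ℕ} (h : ∀ X, lam' (X.map e.toEmbedding) = lam X) {X : Finset E}
    (hX : Dec lam w X) : Dec lam' w (X.map e.toEmbedding) := by
  induction hX with
  | single a ha =>
    have h1 := h {a}
    rw [Finset.map_singleton] at h1 ⊢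
    exact Dec.single _ (by rw [h1]; exact ha)
  | join A B hd _ _ hl ihA ihB =>
    have h1 := h (A ∪ B)
    rw [Finset.map_union] at h1 ⊢
    exact Dec.join _ _ ((Finset.disjoint_map _).2 hd) ihA ihB (by rw [h1]; exact hl)

theorem bwle_pull {K : Type u} [Field K] {n p : ℕ} {w : ℕ} (ω ω' : Form K n p)
    (s : Equiv.Perm (Ix n p)) (h : ∀ a, ω' a ≠ 0 ↔ ω (s ∘ a) ≠ 0) (hω : BWLe w ω) :
    BWLe w ω' := by
  unfold BWLe at hω ⊢
  have h1 := dec_map (lam' := conn ω') s.symm (fun X => by
    rw [conn_map ω ω' s h]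
    congr 1
    ext i
    simp) hω
  have h2 : (Finset.univ : Finset (Ix n p)).map s.symm.toEmbedding = Finset.univ := by
    ext i
    simp
  rwa [h2] at h1

theorem down_xi (mn : G_MIN.{u}) {K : Type u} [Field K] {w : ℕ} (y : Pt K) (m q i : ℕ)
    (hm : 1 ≤ m) (hq : 1 ≤ q) (h : BWLe w (y.x (m + i) q)) : BWLe w (y.x m q) := by
  induction i with
  | zero => exact h
  | succ i ih =>
    apply ih
    have h1 := (mn K w (m + i) q (by omega) hq).1 (y.x (m + i + 1) q) h
    rwa [y.xi_eq] at h1

theorem down_theta (mn : G_MIN.{u}) {K : Type u} [Field K] {w : ℕ} (y : Pt K) (m q i : ℕ)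
    (hm : 1 ≤ m) (hq : 1 ≤ q) (h : BWLe w (y.x m (q + i))) : BWLe w (y.x m q) := by
  induction i with
  | zero => exact h
  | succ i ih =>
    apply ih
    have h1 := (mn K w m (q + i) hm (by omega)).2 (y.x m (q + i + 1)) h
    rwa [y.theta_eq] at h1

theorem nsb (mn : G_MIN.{u}) : G_NSB.{u} := by
  intro K _ w n p g _ x y hxy hx m q hm hq
  have hnM : n ≤ m + n := by omega
  have hpQ : p ≤ q + p := by omega
  have key : BWLe w (y.x (m + n) (q + p)) := by
    have hb : Function.Bijective (g.s hnM hpQ) :=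
      Finite.injective_iff_bijective.1 (s_injective g hnM hpQ)
    refine bwle_pull (x.x (m + n) (q + p)) (y.x (m + n) (q + p)) (Equiv.ofBijective _ hb) ?_
      (hx (m + n) (q + p) (by omega) (by omega))
    intro a
    rw [hxy (m + n) (q + p) hnM hpQ a]
    have hc : (∏ j, g.c hnM hpQ (a j)) ≠ 0 :=
      Finset.prod_ne_zero_iff.2 fun j _ => c_ne g hnM hpQ (a j)
    rw [mul_ne_zero_iff]
    exact ⟨fun h => h.2, fun h => ⟨hc, h⟩⟩
  exact down_theta mn y m q p hm hq (down_xi mn y m (q + p) n hm (by omega) key)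

end Pool.Agent.Helper64.IG.PkNSB
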